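import Pool.Agent.H136.HalinMain

set_option autoImplicit false

namespace Pool.Agent.Results.MP_fbe6c8_co.HalinTwoTone

open Pool.Agent.H136.HalinBase Pool.Agent.H136.HalinCheck Pool.Agent.H136.HalinClose
  Pool.Agent.H136.HalinMain

/-- `f` is a `t`-tone `k`-colouring of `G`: every vertex gets a `t`-subset of the `k` colours and
`|f u ∩ f v| < d(u, v)` for all distinct vertices `u`, `v` (`edist` is the graph distance, `⊤` for
vertices in different components) -/
def IsTone {V : Type*} (G : SimpleGraph V) (t k : ℕ) (f : V → Finset (Fin k)) : Prop :=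
  (∀ v, (f v).card = t) ∧ ∀ u v, u ≠ v → ((f u ∩ f v).card : ℕ∞) < G.edist u v

/-- `H` is (isomorphic to) the graph of a plane tree all of whose inner vertices have degree `3`
with the cycle through its leaves in the order of the embedding. The tree is cut at an edge into
two plane binary trees `s` and `t` rooted at the ends of the edge; in `halin s t` the two roots are
joined by an edge, and the cycle runs through the leaves of `s` from left to right and then through
the leaves of `t` from left to right. -/
def IsCubicHalin {V : Type*} (H : SimpleGraph V) : Prop :=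
  ∃ s t : BT, Nonempty (H ≃g halin s t)

lemma walk_cases {V : Type*} {H : SimpleGraph V} {u v : V} (p : H.Walk u v) :
    u = v ∨ (H.Adj u v ∧ 1 ≤ p.length) ∨ ((∃ w, H.Adj u w ∧ H.Adj w v) ∧ 2 ≤ p.length) ∨
      3 ≤ p.length := by
  cases p with
  | nil => exact Or.inl rfl
  | cons h q =>
      cases q with
      | nil => exact Or.inr (Or.inl ⟨h, by simp⟩)
      | cons h' r =>
          cases r with
          | nil => exact Or.inr (Or.inr (Or.inl ⟨⟨_, h, h'⟩, by simp⟩))
          | cons h'' r' =>
              refine Or.inr (Or.inr (Or.inr ?_))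
              simp only [SimpleGraph.Walk.length_cons]
              omega

/-- every cubic Halin graph of order at least `6` has a `2`-tone `6`-colouring -/
theorem result {V : Type*} (H : SimpleGraph V) (hH : IsCubicHalin H) (hn : 6 ≤ Nat.card V) :
    ∃ f : V → Finset (Fin 6), IsTone H 2 6 f := by
  obtain ⟨s, t, ⟨φ⟩⟩ := hH
  have hn' : 6 ≤ Nat.card (Vt s ⊕ Vt t) := by
    rw [← Nat.card_congr φ.toEquiv]
    exact hn
  obtain ⟨c, h1, h2, h3⟩ := good hn'
  have hadj : ∀ u v, H.Adj u v → HA s t (φ u) (φ v) := by
    intro u v h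
    have := φ.map_adj_iff.2 h
    exact ((SimpleGraph.fromRel_adj _ _ _).1 this).2
  refine ⟨fun v => F (c (φ v)), fun v => F_card _ (h1 _), ?_⟩
  intro u v huv
  by_contra hcon
  rw [not_lt] at hcon
  have hne : H.edist u v ≠ ⊤ := by
    intro e
    rw [e] at hcon
    exact absurd hcon (by simp)
  obtain ⟨p, hp⟩ := SimpleGraph.exists_walk_of_edist_ne_top hne
  rw [← hp] at hcon
  have hle : p.length ≤ (F (c (φ u)) ∩ F (c (φ v))).card := by exact_mod_cast hcon
  have hcu : (F (c (φ u)) ∩ F (c (φ v))).card ≤ 2 := by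
    calc _ ≤ (F (c (φ u))).card := Finset.card_le_card Finset.inter_subset_left
      _ = 2 := F_card _ (h1 _)
  rcases walk_cases p with h | ⟨h, hl⟩ | ⟨⟨w, h, h'⟩, hl⟩ | hl
  · exact huv h
  · have := F_disj _ (h1 (φ u)) _ (h1 (φ v)) (h2 _ _ (hadj _ _ h))
    omega
  · have hne' : c (φ u) ≠ c (φ v) :=
      h3 (φ w) (φ u) (φ v) (HA_symm (hadj _ _ h)) (hadj _ _ h') (fun e => huv (φ.injective e))
    have := F_ne _ (h1 (φ u)) _ (h1 (φ v)) hne'
    omega
  · omega

end Pool.Agent.Results.MP_fbe6c8_co.HalinTwoTone
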